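import Pool.Agent.H541.T1.Sq

set_option autoImplicit false

/-!
# The numbers `8 d ^ 2 + 1 = 64 b ^ 2 + 9` at the real solutions of `d ^ 2 - 8 b ^ 2 = 1`

The real solutions with `d > 0` are the points with `d + b √8 = t`, `t > 0`.  The automorph
`(d, b) ↦ (3 d + 8 b, d + 3 b)` maps `(D t m, B t m)` to `(D t (m+1), B t (m+1))`, and the orbit of `t = 1`,
i.e. of the point `(1, 0)`, is the sequence `(d_m, b_m)` of the problem.
-/

namespace Pool.Agent.Results.MP_f53aaa_nt.RealSolutionsFullDimension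

open Filter Topology
open Pool.Agent.H541.T1

/-- the first coordinate of the `m`-th point of the orbit -/
noncomputable def D (t : ℝ) (m : ℕ) : ℝ := (t * (3 + √8) ^ m + (t * (3 + √8) ^ m)⁻¹) / 2

/-- the second coordinate of the `m`-th point of the orbit -/
noncomputable def B (t : ℝ) (m : ℕ) : ℝ := (t * (3 + √8) ^ m - (t * (3 + √8) ^ m)⁻¹) / (2 * √8)

/-- the number of the problem at the `m`-th point of the orbit -/
noncomputable def N (t : ℝ) (m : ℕ) : ℝ := 8 * D t m ^ 2 + 1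

lemma s8 : √(8 : ℝ) * √8 = 8 := Real.mul_self_sqrt (by norm_num)

lemma s0 : (0 : ℝ) < √8 := by positivity

lemma part0 (x y : ℝ) (h : x ^ 2 - 8 * y ^ 2 = 1) (hx : 0 < x) :
    0 < x + y * √8 ∧ D (x + y * √8) 0 = x ∧ B (x + y * √8) 0 = y := by
  have h1 := s8
  have h2 := s0
  have h3 : (x + y * √8) * (x - y * √8) = 1 := by
    have : (x + y * √8) * (x - y * √8) = x ^ 2 - y ^ 2 * (√8 * √8) := by ring
    rw [this, h1]
    linarith
  have h5 : 0 < x + y * √8 := by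
    by_contra hcon
    push Not at hcon
    have h6 : 0 < x - y * √8 := by linarith
    nlinarith
  have h6 : (x + y * √8)⁻¹ = x - y * √8 := (eq_inv_of_mul_eq_one_right h3).symm
  refine ⟨h5, ?_, ?_⟩
  · unfold D
    rw [pow_zero, mul_one, h6]
    ring
  · unfold B
    rw [pow_zero, mul_one, h6]
    field_simp
    ring

lemma part1 (t : ℝ) (ht : 0 < t) (m : ℕ) : D t m ^ 2 - 8 * B t m ^ 2 = 1 ∧
    D t (m + 1) = 3 * D t m + 8 * B t m ∧ B t (m + 1) = D t m + 3 * B t m ∧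
    N t m = 64 * B t m ^ 2 + 9 := by
  have h1 := s8
  have h2 := s0
  have h3 : (0 : ℝ) < 3 + √8 := by positivity
  obtain ⟨s, hs⟩ : ∃ s : ℝ, s = t * (3 + √8) ^ m := ⟨_, rfl⟩
  have hs0 : 0 < s := by
    rw [hs]
    positivity
  have h4 : (3 + √8)⁻¹ = 3 - √8 := by
    symm
    apply eq_inv_of_mul_eq_one_right
    linear_combination -h1
  have h5 : t * (3 + √8) ^ (m + 1) = s * (3 + √8) := by
    rw [hs, pow_succ]
    ring
  have h6 : (t * (3 + √8) ^ (m + 1))⁻¹ = s⁻¹ * (3 - √8) := by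
    rw [h5, mul_inv, h4]
  obtain ⟨i, hi⟩ : ∃ i : ℝ, i = s⁻¹ := ⟨_, rfl⟩
  have hsi : s * i = 1 := by
    rw [hi]
    exact mul_inv_cancel₀ hs0.ne'
  have hX : D t m = (s + i) / 2 := by
    unfold D
    rw [← hs, hi]
  have hY : B t m = (s - i) * √8 / 16 := by
    unfold B
    rw [← hs, ← hi]
    field_simp
    linear_combination (s - i) * (-2 * h1)
  have hX1 : D t (m + 1) = (s * (3 + √8) + i * (3 - √8)) / 2 := by
    unfold D
    rw [h6, h5, hi]
  have hY1 : B t (m + 1) = (s * (3 + √8) - i * (3 - √8)) * √8 / 16 := by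
    unfold B
    rw [h6, h5, ← hi]
    field_simp
    linear_combination (s * (3 + √8) - i * (3 - √8)) * (-2 * h1)
  have hN : N t m = 8 * ((s + i) / 2) ^ 2 + 1 := by
    unfold N
    rw [hX]
  rw [hX, hY, hX1, hY1, hN]
  refine ⟨?_, ?_, ?_, ?_⟩
  · linear_combination (-(s - i) ^ 2 / 32) * h1 + hsi
  · ring
  · linear_combination ((s + i) / 16) * h1
  · linear_combination (-(s - i) ^ 2 / 4) * h1 + 8 * hsi

lemma part2 (m : ℕ) : ∃ d b : ℕ, D 1 m = d ∧ B 1 m = b ∧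
    (d : ℝ) + b * √8 = (3 + √8) ^ m ∧ N 1 m = ((8 * d ^ 2 + 1 : ℕ) : ℝ) := by
  have h1 := s8
  have h2 := s0
  have key : ∃ d b : ℕ, D 1 m = d ∧ B 1 m = b ∧ (d : ℝ) + b * √8 = (3 + √8) ^ m := by
    induction m with
    | zero =>
      have h3 := part0 1 0 (by norm_num) (by norm_num)
      rw [zero_mul, add_zero] at h3
      refine ⟨1, 0, ?_, ?_, by norm_num⟩
      · rw [h3.2.1]
        norm_num
      · rw [h3.2.2]
        norm_num
    | succ m ih =>
      obtain ⟨d, b, e1, e2, e4⟩ := ih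
      obtain ⟨-, e5, e6, -⟩ := part1 1 (by positivity) m
      refine ⟨3 * d + 8 * b, d + 3 * b, ?_, ?_, ?_⟩
      · rw [e5, e1, e2]
        push_cast
        ring
      · rw [e6, e1, e2]
        push_cast
        ring
      · rw [pow_succ, ← e4]
        push_cast
        linear_combination (-(b : ℝ)) * h1
  obtain ⟨d, b, e1, e2, e3⟩ := key
  refine ⟨d, b, e1, e2, e3, ?_⟩
  unfold N
  rw [e1]
  push_cast
  ring

/-- the main term -/
noncomputable def lam (m : ℕ) : ℝ := 2 * ((3 + √8) ^ m) ^ 2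

lemma lam_pos (m : ℕ) : 0 < lam m := by
  have h2 := s0
  unfold lam
  positivity

lemma lam_succ (m : ℕ) : lam (m + 1) = (3 + √8) ^ 2 * lam m := by
  unfold lam
  ring

lemma lam_dbl (m : ℕ) : 2 * lam m ≤ lam (m + 1) := by
  rw [lam_succ]
  have h1 := lam_pos m
  have h2 := s0
  have h3 : (2 : ℝ) ≤ (3 + √8) ^ 2 := by nlinarith
  nlinarith

/-- the number `N` as a function of `t ^ 2` -/
noncomputable def F (β : ℝ) (m : ℕ) : ℝ := β * lam m + 5 + 4 * (β * lam m)⁻¹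

lemma F_eq (t : ℝ) (ht : 0 < t) (m : ℕ) : F (t ^ 2) m = N t m := by
  have h2 := s0
  unfold F N D lam
  obtain ⟨q, hq⟩ : ∃ q : ℝ, q = (3 + √8) ^ m := ⟨_, rfl⟩
  have hq0 : 0 < q := by
    rw [hq]
    positivity
  rw [← hq]
  field_simp
  ring

lemma F_close (β : ℝ) (hβ : 0 < β) : ∀ᶠ m in atTop, |F β m - (β * lam m + 5)| ≤ 1 / 8 := by
  have h1 : Tendsto (fun m : ℕ => β * lam m) atTop atTop :=
    (dbl_tendsto _ lam_dbl lam_pos).const_mul_atTop hβ
  filter_upwards [h1.eventually_ge_atTop 32] with m hm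
  have h2 : (β * lam m)⁻¹ ≤ 1 / 32 := by
    rw [inv_le_comm₀ (by linarith) (by norm_num)]
    norm_num
    exact hm
  have h3 : 0 < (β * lam m)⁻¹ := by
    apply inv_pos.2
    linarith
  have h4 : F β m - (β * lam m + 5) = 4 * (β * lam m)⁻¹ := by
    unfold F
    ring
  rw [h4, abs_of_pos (by linarith)]
  linarith

lemma F_close6 (β : ℝ) (hβ : 0 < β) : ∀ᶠ m in atTop, |F β m - β * lam m| ≤ 6 := by
  filter_upwards [F_close β hβ] with m hm
  rw [abs_le] at hm ⊢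
  constructor <;> linarith

/-- **Main theorem.** First, `(D t m, B t m)` are the orbits of the real solutions of
`d ^ 2 - 8 b ^ 2 = 1` with `d > 0` under the automorph, and `t = 1` gives the solutions of the problem;
`N t m = 8 d ^ 2 + 1 = 64 b ^ 2 + 9` at the `m`-th point.  (1) In every interval of positive `t`, the set
of the `t` for which all integers at distance at most `η log m` from `N t m` are composite, with a prime
factor at most `exp (m ^ ε)`, for all large `m`, has Hausdorff dimension one.  (2) So has the set of the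
`t` for which, for all integers `h` and `W`, `⌊N t m⌋ + h` has a prime factor between `W` and `z m` for
all large `m`, where `z` tends to infinity arbitrarily slowly.  (3) The set of the `t` for which for all
large `m` the number `⌊N t m⌋` has a prime factor at most `Z` has dimension less than one. -/
theorem result :
    (∀ x y : ℝ, x ^ 2 - 8 * y ^ 2 = 1 → 0 < x →
      0 < x + y * √8 ∧ D (x + y * √8) 0 = x ∧ B (x + y * √8) 0 = y) ∧
    (∀ t : ℝ, 0 < t → ∀ m : ℕ, D t m ^ 2 - 8 * B t m ^ 2 = 1 ∧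
      D t (m + 1) = 3 * D t m + 8 * B t m ∧ B t (m + 1) = D t m + 3 * B t m ∧
      N t m = 64 * B t m ^ 2 + 9) ∧
    (∀ m : ℕ, ∃ d b : ℕ, D 1 m = d ∧ B 1 m = b ∧
      (d : ℝ) + b * √8 = (3 + √8) ^ m ∧ N 1 m = ((8 * d ^ 2 + 1 : ℕ) : ℝ)) ∧
    (∀ ε : ℝ, 0 < ε → ∃ η : ℝ, 0 < η ∧ ∀ u v : ℝ, 0 ≤ u → u < v →
      dimH {t : ℝ | t ∈ Set.Ioo u v ∧ ∀ᶠ m : ℕ in atTop, ∀ a : ℤ,
        |(a : ℝ) - N t m| ≤ η * Real.log m →
        ∃ p : ℕ, p.Prime ∧ (p : ℝ) ≤ Real.exp ((m : ℝ) ^ ε) ∧ (p : ℤ) ∣ a ∧ (p : ℤ) < a} = 1) ∧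
    (∀ z : ℕ → ℝ, Tendsto z atTop atTop → ∀ u v : ℝ, 0 ≤ u → u < v →
      dimH {t : ℝ | t ∈ Set.Ioo u v ∧ ∀ (h : ℤ) (W : ℕ), ∀ᶠ m : ℕ in atTop,
        ∃ p : ℕ, p.Prime ∧ W < p ∧ (p : ℝ) ≤ z m ∧ (p : ℤ) ∣ ⌊N t m⌋ + h} = 1) ∧
    (∀ Z : ℕ, dimH {t : ℝ | 0 < t ∧ ∀ᶠ m : ℕ in atTop,
      ∃ p : ℕ, p.Prime ∧ p ≤ Z ∧ (p : ℤ) ∣ ⌊N t m⌋} < 1) := by
  refine ⟨part0, part1, part2, ?_, ?_, ?_⟩
  · intro ε hε
    obtain ⟨η, hη0, hη⟩ := near_comp (J := Unit) ε hε (fun _ => lam)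
      (fun _ => dbl_sparse _ lam_dbl lam_pos) (fun _ => dbl_tendsto _ lam_dbl lam_pos)
      (fun _ => dbl_grow _ lam_dbl lam_pos)
      (fun _ => grow_up _ lam_pos ((3 + √8) ^ 2) (fun m => (lam_succ m).le))
    refine ⟨η (), hη0 _, fun u v hu huv => ?_⟩
    have hv : 0 < v := lt_of_le_of_lt hu huv
    have h1 := hη (fun _ => F) (fun _ => 6) (fun _ => F_close6) (u ^ 2) (v ^ 2) (by positivity)
      (by gcongr)
    have h2 := dimH_sq_one (fun β => ∀ _ : Unit, ∀ᶠ m : ℕ in atTop, ∀ a : ℤ,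
        |(a : ℝ) - F β m| ≤ η () * Real.log m →
        ∃ p : ℕ, p.Prime ∧ (p : ℝ) ≤ Real.exp ((m : ℝ) ^ ε) ∧ (p : ℤ) ∣ a ∧ (p : ℤ) < a) u v hu h1 hv
    rw [← h2]
    congr 1
    ext t
    constructor
    · rintro ⟨h3, h4⟩
      refine ⟨h3, fun _ => ?_⟩
      simp only [F_eq t (lt_of_le_of_lt hu h3.1)]
      exact h4
    · rintro ⟨h3, h4⟩
      refine ⟨h3, ?_⟩
      have h5 := h4 ()
      simp only [F_eq t (lt_of_le_of_lt hu h3.1)] at h5
      exact h5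
  · intro z hz u v hu huv
    have hv : 0 < v := lt_of_le_of_lt hu huv
    have h1 := near_fam (J := Unit) (fun _ => lam) (fun _ => z) (fun _ => dbl_sparse _ lam_dbl lam_pos)
      (fun _ => dbl_tendsto _ lam_dbl lam_pos) (fun _ => hz) (fun _ => F) (fun _ => 6)
      (fun _ => F_close6) (u ^ 2) (v ^ 2) (by positivity) (by gcongr)
    have h2 := dimH_sq_one (fun β => ∀ (_ : Unit) (h : ℤ) (W : ℕ), ∀ᶠ m : ℕ in atTop,
        ∃ p : ℕ, p.Prime ∧ W < p ∧ (p : ℝ) ≤ z m ∧ (p : ℤ) ∣ ⌊F β m⌋ + h) u v hu h1 hv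
    rw [← h2]
    congr 1
    ext t
    constructor
    · rintro ⟨h3, h4⟩
      refine ⟨h3, fun _ => ?_⟩
      simp only [F_eq t (lt_of_le_of_lt hu h3.1)]
      exact h4
    · rintro ⟨h3, h4⟩
      refine ⟨h3, ?_⟩
      have h5 := h4 ()
      simp only [F_eq t (lt_of_le_of_lt hu h3.1)] at h5
      exact h5
  · intro Z
    have h1 := near_bounded lam (fun _ => 5) lam_pos (dbl_tendsto _ lam_dbl lam_pos) ((3 + √8) ^ 2)
      (fun m => (lam_succ m).le) F F_close Z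
    have h2 := dimH_sq_lt (fun β => ∀ᶠ m : ℕ in atTop,
      ∃ p : ℕ, p.Prime ∧ p ≤ Z ∧ (p : ℤ) ∣ ⌊F β m⌋) h1
    refine lt_of_le_of_lt (dimH_mono ?_) h2
    rintro t ⟨h3, h4⟩
    refine ⟨h3, ?_⟩
    simp only [F_eq t h3]
    exact h4

end Pool.Agent.Results.MP_f53aaa_nt.RealSolutionsFullDimension
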